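import Pool.Agent.Helper75.Torus.Goals

set_option autoImplicit false

/-!
# The amplitude equation (packet TORUS-ALG)
-/

open Set MeasureTheory Matrix

namespace Pool.Agent.Helper25.Torus

open Pool.Agent.Helper75.Torus

lemma J_app (J : E →L[ℝ] E) (v : E) :
    J v = v 0 • J (ee 0) + v 1 • J (ee 1) + v 2 • J (ee 2) := by
  have hv : v = v 0 • ee 0 + v 1 • ee 1 + v 2 • ee 2 := by
    ext i; fin_cases i <;> simp [ee]
  conv_lhs => rw [hv]
  simp only [map_add, map_smul]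

/-- coordinates of `J v` -/
lemma J_co (J : E →L[ℝ] E) (v : E) (i : Fin 3) :
    J v i = v 0 * J (ee 0) i + v 1 * J (ee 1) i + v 2 * J (ee 2) i := by
  rw [J_app]; simp

lemma trn_co (J : E →L[ℝ] E) (z : E) (i : Fin 3) :
    trn J z i = z 0 * J (ee i) 0 + z 1 * J (ee i) 1 + z 2 * J (ee i) 2 := by
  simp [trn, dotProduct, Fin.sum_univ_three]

lemma dot_co (u v : E) : u ⬝ᵥ v = u 0 * v 0 + u 1 * v 1 + u 2 * v 2 := by
  simp [dotProduct, Fin.sum_univ_three]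

lemma cr0 (u v : E) : crossProduct u v 0 = u 1 * v 2 - u 2 * v 1 := by
  simp [cross_apply]

lemma cr1 (u v : E) : crossProduct u v 1 = u 2 * v 0 - u 0 * v 2 := by
  simp [cross_apply]

lemma cr2 (u v : E) : crossProduct u v 2 = u 0 * v 1 - u 1 * v 0 := by
  simp [cross_apply]

lemma cof_co (J : E →L[ℝ] E) (κ : E) (i : Fin 3) :
    cofv J κ i = κ 0 * crossProduct (J (ee 1)) (J (ee 2)) i +
      κ 1 * crossProduct (J (ee 2)) (J (ee 0)) i + κ 2 * crossProduct (J (ee 0)) (J (ee 1)) i := by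
  simp [cofv]

lemma ee_val (i j : Fin 3) : ee i j = if j = i then 1 else 0 := by
  simp [ee, Pi.single_apply]

lemma inv0 (J : E →L[ℝ] E) (z : E) : inv3 J z 0 = crossProduct (J (ee 1)) (J (ee 2)) ⬝ᵥ z := by
  simp [inv3, cofv, ee]

lemma inv1 (J : E →L[ℝ] E) (z : E) : inv3 J z 1 = crossProduct (J (ee 2)) (J (ee 0)) ⬝ᵥ z := by
  simp [inv3, cofv, ee]

lemma inv2 (J : E →L[ℝ] E) (z : E) : inv3 J z 2 = crossProduct (J (ee 0)) (J (ee 1)) ⬝ᵥ z := by
  simp [inv3, cofv, ee]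

lemma C_co (J : E →L[ℝ] E) (w : E) (i : Fin 3) :
    trn J (J w) i = (w 0 * J (ee 0) 0 + w 1 * J (ee 1) 0 + w 2 * J (ee 2) 0) * J (ee i) 0 +
      (w 0 * J (ee 0) 1 + w 1 * J (ee 1) 1 + w 2 * J (ee 2) 1) * J (ee i) 1 +
      (w 0 * J (ee 0) 2 + w 1 * J (ee 1) 2 + w 2 * J (ee 2) 2) * J (ee i) 2 := by
  rw [trn_co, J_co J w 0, J_co J w 1, J_co J w 2]

lemma key1 (J : E →L[ℝ] E) (κ b : E) :
    trn J (J (crossProduct κ (trn J (J b)))) = crossProduct (inv3 J (cofv J κ)) b := by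
  have h0 : inv3 J (cofv J κ) 0 = crossProduct (J (ee 1)) (J (ee 2)) ⬝ᵥ cofv J κ := inv0 J _
  have h1 : inv3 J (cofv J κ) 1 = crossProduct (J (ee 2)) (J (ee 0)) ⬝ᵥ cofv J κ := inv1 J _
  have h2 : inv3 J (cofv J κ) 2 = crossProduct (J (ee 0)) (J (ee 1)) ⬝ᵥ cofv J κ := inv2 J _
  rw [dot_co, cof_co, cof_co, cof_co] at h0 h1 h2
  simp only [cr0, cr1, cr2] at h0 h1 h2
  have g0 := C_co J (crossProduct κ (trn J (J b))) 0
  have g1 := C_co J (crossProduct κ (trn J (J b))) 1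
  have g2 := C_co J (crossProduct κ (trn J (J b))) 2
  rw [cr0 κ, cr1 κ, cr2 κ, C_co J b 0, C_co J b 1, C_co J b 2] at g0 g1 g2
  generalize inv3 J (cofv J κ) = z at *
  generalize trn J (J (crossProduct κ (trn J (J b)))) = y at *
  generalize J (ee 0) = p at *
  generalize J (ee 1) = q at *
  generalize J (ee 2) = r at *
  have e0 : y 0 = crossProduct z b 0 := by
    rw [g0, cr0, h1, h2]; ring
  have e1 : y 1 = crossProduct z b 1 := by
    rw [g1, cr1, h0, h2]; ring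
  have e2 : y 2 = crossProduct z b 2 := by
    rw [g2, cr2, h0, h1]; ring
  ext i
  fin_cases i
  · exact e0
  · exact e1
  · exact e2

lemma key2 (J : E →L[ℝ] E) (κ : E) :
    κ ⬝ᵥ inv3 J (cofv J κ) = cofv J κ ⬝ᵥ cofv J κ := by
  rw [dot_co κ, inv0, inv1, inv2]
  simp only [dot_co, cof_co]
  ring

/-- for a unit vector `κ` and vectors orthogonal to `κ` the cross product is along `κ` -/
lemma key3 (κ z b : E) (hκ : κ ⬝ᵥ κ = 1) (hz : κ ⬝ᵥ z = 0) (hb : κ ⬝ᵥ b = 0) :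
    crossProduct z b = (κ ⬝ᵥ crossProduct z b) • κ := by
  rw [dot_co] at hκ hz hb
  ext i
  fin_cases i
  · simp only [Fin.zero_eta, Fin.isValue, cr0, Pi.smul_apply, smul_eq_mul, dot_co, cr1, cr2]
    linear_combination (-(z 1 * b 2 - z 2 * b 1)) * hκ + (κ 1 * b 2 - κ 2 * b 1) * hz +
      (κ 2 * z 1 - κ 1 * z 2) * hb
  · simp only [Fin.mk_one, Fin.isValue, cr1, Pi.smul_apply, smul_eq_mul, dot_co, cr0, cr2]
    linear_combination (-(z 2 * b 0 - z 0 * b 2)) * hκ + (κ 2 * b 0 - κ 0 * b 2) * hz +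
      (κ 0 * z 2 - κ 2 * z 0) * hb
  · simp only [Fin.reduceFinMk, Fin.isValue, cr2, Pi.smul_apply, smul_eq_mul, dot_co, cr0, cr1]
    linear_combination (-(z 0 * b 1 - z 1 * b 0)) * hκ + (κ 0 * b 1 - κ 1 * b 0) * hz +
      (κ 1 * z 0 - κ 0 * z 1) * hb

lemma trn_smul (J : E →L[ℝ] E) (s : ℝ) (z : E) : trn J (s • z) = s • trn J z := by
  ext i; simp [trn, smul_dotProduct]

theorem thm (h : G_COF) : G_ALG := by
  intro J κ om b hJ hκ hb
  have hκ0 : κ ≠ 0 := by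
    rintro rfl
    simp at hκ
  have hpos : 0 < cofv J κ ⬝ᵥ cofv J κ := by
    have := (h J hJ).2.2.2.2.2.2.2 κ hκ0
    exact Real.sqrt_pos.1 this
  set k2 := cofv J κ ⬝ᵥ cofv J κ with hk2
  set z : E := om - ((κ ⬝ᵥ om) / k2) • inv3 J (cofv J κ) with hz
  have hw : trn J (J (bRHS (κ ⬝ᵥ om) J κ b)) + crossProduct om b = crossProduct z b := by
    rw [bRHS, map_smul, trn_smul, key1, ← hk2, hz]
    simp only [map_sub, map_smul, LinearMap.sub_apply, LinearMap.smul_apply, neg_smul]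
    abel
  rw [hw]
  refine key3 κ z b hκ ?_ hb
  rw [hz, dotProduct_sub, dotProduct_smul, key2, ← hk2, smul_eq_mul]
  field_simp
  simp

end Pool.Agent.Helper25.Torus
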